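import Mathlib

open MeasureTheory ProbabilityTheory Filter Topology

namespace Pool.Agent.Results.MP_6cdded_pr.KWidthLimit

/-- A rooted tree on the vertex set `V`: a root and a parent map such that iterating the parent map
from any vertex reaches the root. The parent of the root is by convention the root itself. -/
structure RootedTree (V : Type) where
  root : V
  parent : V → V
  parent_root : parent root = root
  reaches : ∀ v, ∃ n : ℕ, parent^[n] v = root

/-- `T.IsDescendant v u`: the vertex `v` is a (proper) descendant of the vertex `u`. -/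
def RootedTree.IsDescendant {V : Type} (T : RootedTree V) (v u : V) : Prop :=
  v ≠ u ∧ ∃ n : ℕ, T.parent^[n] v = u

/-- Every vertex has at most `k` children. -/
def RootedTree.IsKAry {V : Type} (T : RootedTree V) (k : ℕ) : Prop :=
  ∀ u, {v | v ≠ T.root ∧ T.parent v = u}.encard ≤ (k : ℕ∞)

/-- `A` is a `k`-ary chain for the strict order `lt`. -/
def IsKAryChain {Q : Type} (lt : Q → Q → Prop) (k : ℕ) (A : Set Q) : Prop :=
  ∃ (V : Type) (T : RootedTree V) (e : V ≃ A), T.IsKAry k ∧
    ∀ u v, T.IsDescendant v u → lt (e u) (e v)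

/-- The `k`-width: the least number of classes of a partition into `k`-ary chains. -/
noncomputable def kWidth {Q : Type} (lt : Q → Q → Prop) (k : ℕ) : ℕ :=
  sInf {m : ℕ | ∃ c : Q → Fin m, ∀ j, IsKAryChain lt k {x | c x = j}}

section Comb

variable {n : ℕ} (a b : Fin n → ℝ)

/-- lower bound -/
theorem lower_of_coloring (k m : ℕ) (c : Fin n → Fin m)
    (hc : ∀ j, IsKAryChain (fun i j => b i ≤ a j) k {x | c x = j}) (x : ℝ) :
    (Finset.univ.filter fun i => a i ≤ x).card ≤
      m + k * (Finset.univ.filter fun i => b i ≤ x).card := by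
  classical
  choose V T e hk hd using hc
  -- parent map
  set par : Fin n → Fin n := fun i =>
    ((e (c i) ((T (c i)).parent ((e (c i)).symm ⟨i, rfl⟩)) : {x | c x = c i}) : Fin n) with hpar
  set rt : Fin m → Fin n := fun j => ((e j (T j).root : {x | c x = j}) : Fin n) with hrt
  have hcpar : ∀ i, c (par i) = c i := fun i => 
    (e (c i) ((T (c i)).parent ((e (c i)).symm ⟨i, rfl⟩))).2
  -- nonroots
  have key : ∀ i, i ∉ Finset.univ.image rt → b (par i) ≤ a i := by
    intro i hi
    have h1 : (e (c i)).symm ⟨i, rfl⟩ ≠ (T (c i)).root := by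
      intro h
      apply hi
      rw [Finset.mem_image]
      refine ⟨c i, Finset.mem_univ _, ?_⟩
      simp only [hrt]
      rw [← h]
      simp
    have h2 : (T (c i)).IsDescendant ((e (c i)).symm ⟨i, rfl⟩)
        ((T (c i)).parent ((e (c i)).symm ⟨i, rfl⟩)) := by
      refine ⟨?_, 1, rfl⟩
      intro h
      apply h1
      obtain ⟨N, hN⟩ := (T (c i)).reaches ((e (c i)).symm ⟨i, rfl⟩)
      rw [← hN]
      exact (Function.iterate_fixed h.symm N).symm
    have h3 := hd (c i) _ _ h2
    simpa using h3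
  have hsub : (Finset.univ.filter fun i => a i ≤ x) ⊆
      (Finset.univ.image rt) ∪ ((Finset.univ.filter fun i => a i ≤ x) \ (Finset.univ.image rt)) := by
    intro i hi
    by_cases h : i ∈ Finset.univ.image rt
    · exact Finset.mem_union_left _ h
    · exact Finset.mem_union_right _ (Finset.mem_sdiff.2 ⟨hi, h⟩)
  refine (Finset.card_le_card hsub).trans ((Finset.card_union_le _ _).trans ?_)
  refine Nat.add_le_add ?_ ?_
  · exact (Finset.card_image_le).trans (by simp)
  · set S := (Finset.univ.filter fun i => a i ≤ x) \ (Finset.univ.image rt) with hS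
    refine (Finset.card_le_mul_card_image (f := par) S k ?_).trans ?_
    · intro u hu
      -- children of u
      rw [Finset.mem_image] at hu
      obtain ⟨i₀, hi₀, hu₀⟩ := hu
      set j := c u with hj
      have hcard := hk j ((e j).symm ⟨u, rfl⟩)
      have hinj : ((S.filter fun i => par i = u : Finset (Fin n)) : Set (Fin n)).encard ≤
          {v | v ≠ (T j).root ∧ (T j).parent v = (e j).symm ⟨u, rfl⟩}.encard := by
        -- injection i ↦ (e j).symm ⟨i, _⟩
        have hmem : ∀ i ∈ (S.filter fun i => par i = u), c i = j := by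
          intro i hi
          rw [Finset.mem_filter] at hi
          rw [hj, ← hi.2, hcpar]
        refine Set.encard_le_encard_of_injOn
          (f := fun i => if h : c i = j then (e j).symm ⟨i, h⟩ else (T j).root) ?_ ?_
        · intro i hi
          have hcij := hmem i hi
          rw [Finset.mem_coe, Finset.mem_filter] at hi
          obtain ⟨hiS, hiu⟩ := hi
          simp only [hcij, dif_pos]
          have hgen : ∀ (j' : Fin m) (h : c i = j'),
              ((e (c i) ((T (c i)).parent ((e (c i)).symm ⟨i, rfl⟩)) : {x | c x = c i}) : Fin n) =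
              ((e j' ((T j').parent ((e j').symm ⟨i, h⟩)) : {x | c x = j'}) : Fin n) := by
            intro j' h; subst h; rfl
          have hpi := hgen j hcij
          constructor
          · intro h
            have : i ∈ Finset.univ.image rt := by
              rw [Finset.mem_image]
              refine ⟨j, Finset.mem_univ _, ?_⟩
              simp only [hrt]
              rw [← h]; simp
            exact (Finset.mem_sdiff.1 hiS).2 this
          · apply (e j).injective
            rw [Equiv.apply_symm_apply]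
            apply Subtype.ext
            rw [← hpi]
            exact hiu
        · intro i hi i' hi' h
          have h1 := hmem i hi
          have h2 := hmem i' hi'
          simp only [h1, h2, dif_pos] at h
          have := (e j).symm.injective h
          simpa using this
      have := hinj.trans hcard
      rw [Set.encard_coe_eq_coe_finsetCard] at this
      exact_mod_cast this
    · refine Nat.mul_le_mul_left _ (Finset.card_le_card ?_)
      intro u hu
      rw [Finset.mem_image] at hu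
      obtain ⟨i, hi, rfl⟩ := hu
      rw [Finset.mem_sdiff, Finset.mem_filter] at hi
      simp only [Finset.mem_filter, Finset.mem_univ, true_and]
      exact (key i hi.2).trans hi.1.2

/-- upper bound: an explicit partition -/
theorem exists_coloring (hab : ∀ i, a i < b i) (k m : ℕ)
    (hm : ∀ x, (Finset.univ.filter fun i => a i ≤ x).card ≤
      m + k * (Finset.univ.filter fun i => b i ≤ x).card) :
    ∃ c : Fin n → Fin (min m n), ∀ j, IsKAryChain (fun i j => b i ≤ a j) k {x | c x = j} := by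
  classical
  set σ := Tuple.sort a with hσ
  set τ := Tuple.sort b with hτ
  have hσm : Monotone (a ∘ σ) := Tuple.monotone_sort a
  have hτm : Monotone (b ∘ τ) := Tuple.monotone_sort b
  have hlt : ∀ i : Fin n, ((σ.symm i).val - m) / k < n := fun i =>
    lt_of_le_of_lt ((Nat.div_le_self _ _).trans (Nat.sub_le _ _)) (σ.symm i).2
  set par : Fin n → Fin n := fun i =>
    if m ≤ (σ.symm i).val then τ ⟨((σ.symm i).val - m) / k, hlt i⟩ else i with hpar
  have par_of_lt : ∀ i, (σ.symm i).val < m → par i = i := by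
    intro i hi
    simp only [hpar]
    rw [if_neg (by omega)]
  have par_of_le : ∀ i, m ≤ (σ.symm i).val → par i = τ ⟨((σ.symm i).val - m) / k, hlt i⟩ := by
    intro i hi
    simp only [hpar]
    rw [if_pos hi]
  -- counting facts
  have hAcard : ∀ i, (σ.symm i).val + 1 ≤ (Finset.univ.filter fun i' => a i' ≤ a i).card := by
    intro i
    have : (Finset.image σ (Finset.Iic (σ.symm i))) ⊆ (Finset.univ.filter fun i' => a i' ≤ a i) := by
      intro i' hi'
      rw [Finset.mem_image] at hi'
      obtain ⟨r, hr, rfl⟩ := hi'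
      rw [Finset.mem_Iic] at hr
      have := hσm hr
      simp only [Finset.mem_filter, Finset.mem_univ, true_and]
      simpa using this
    have h2 := Finset.card_le_card this
    rw [Finset.card_image_of_injective _ σ.injective] at h2
    simpa [Fin.card_Iic] using h2
  have hBcard : ∀ (r : Fin n) (x : ℝ), x < b (τ r) →
      (Finset.univ.filter fun i' => b i' ≤ x).card ≤ r.val := by
    intro r x hx
    have : (Finset.univ.filter fun i' => b i' ≤ x) ⊆ Finset.image τ (Finset.Iio r) := by
      intro i' hi'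
      simp only [Finset.mem_filter, Finset.mem_univ, true_and] at hi'
      rw [Finset.mem_image]
      refine ⟨τ.symm i', ?_, by simp⟩
      rw [Finset.mem_Iio]
      by_contra hcon
      rw [not_lt] at hcon
      have := hτm hcon
      simp only [Function.comp_apply, Equiv.apply_symm_apply] at this
      linarith
    have h2 := Finset.card_le_card this
    rw [Finset.card_image_of_injective _ τ.injective] at h2
    simpa [Fin.card_Iio] using h2
  have key : ∀ i, m ≤ (σ.symm i).val → b (par i) ≤ a i := by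
    intro i hi
    rw [par_of_le i hi]
    by_contra hcon
    rw [not_le] at hcon
    have h1 := hAcard i
    have h2 := hm (a i)
    have h3 := hBcard _ _ hcon
    simp only at h3
    have h4 : k * (((σ.symm i).val - m) / k) ≤ (σ.symm i).val - m := Nat.mul_div_le _ _
    have h5 := Nat.mul_le_mul_left k h3
    omega
  have hkpos : ∀ i, m ≤ (σ.symm i).val → 0 < k := by
    intro i hi
    have h1 := hAcard i
    have h2 := hm (a i)
    rcases Nat.eq_zero_or_pos k with h | h
    · subst h; omega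
    · exact h
  -- decrease
  have hdec : ∀ i, m ≤ (σ.symm i).val → (τ.symm (par i)).val < (τ.symm i).val := by
    intro i hi
    have h1 := key i hi
    have h2 : b (par i) < b i := lt_of_le_of_lt h1 (hab i)
    by_contra hcon
    rw [not_lt] at hcon
    have := hτm (show τ.symm i ≤ τ.symm (par i) from hcon)
    simp only [Function.comp_apply, Equiv.apply_symm_apply] at this
    linarith
  have hiter : ∀ N i, (σ.symm (par^[N] i)).val < m ∨ (τ.symm (par^[N] i)).val + N ≤ (τ.symm i).val := by
    intro N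
    induction N with
    | zero => intro i; right; simp
    | succ N ih =>
      intro i
      rw [Function.iterate_succ_apply']
      rcases ih i with h | h
      · left
        rw [par_of_lt _ h]; exact h
      · by_cases h' : (σ.symm (par^[N] i)).val < m
        · left
          rw [par_of_lt _ h']; exact h'
        · right
          have := hdec _ (not_lt.1 h')
          omega
  have hroot : ∀ i, (σ.symm (par^[n] i)).val < m := by
    intro i
    rcases hiter n i with h | h
    · exact h
    · have := (τ.symm i).2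
      omega
  have hfix : ∀ i, par (par^[n] i) = par^[n] i := fun i => par_of_lt _ (hroot i)
  have hiterpar : ∀ i, par^[n] (par i) = par^[n] i := by
    intro i
    rw [← Function.iterate_succ_apply, Function.iterate_succ_apply', hfix]
  set c : Fin n → Fin (min m n) := fun i =>
    ⟨(σ.symm (par^[n] i)).val, lt_min (hroot i) (σ.symm (par^[n] i)).2⟩ with hc
  have hcpar : ∀ i, c (par i) = c i := by
    intro i
    simp only [hc, hiterpar]
  have hciff : ∀ i (j : Fin (min m n)), c i = j ↔
      par^[n] i = σ ⟨j.val, lt_of_lt_of_le j.2 (min_le_right _ _)⟩ := by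
    intro i j
    simp only [hc]
    rw [Fin.ext_iff, ← Equiv.symm_apply_eq, Fin.ext_iff]
  refine ⟨c, fun j => ?_⟩
  have hjm : j.val < m := lt_of_lt_of_le j.2 (min_le_left _ _)
  have hjn : j.val < n := lt_of_lt_of_le j.2 (min_le_right _ _)
  have hparroot : par (σ ⟨j.val, hjn⟩) = σ ⟨j.val, hjn⟩ := par_of_lt _ (by simpa using hjm)
  have hrootmem : c (σ ⟨j.val, hjn⟩) = j := by
    rw [hciff]
    exact Function.iterate_fixed hparroot n
  let T : RootedTree {x | c x = j} :=
    { root := ⟨σ ⟨j.val, hjn⟩, hrootmem⟩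
      parent := fun v => ⟨par v.1, by have := v.2; simp only [Set.mem_ofPred_eq] at this ⊢; rw [hcpar, this]⟩
      parent_root := Subtype.ext hparroot
      reaches := by
        intro v
        refine ⟨n, ?_⟩
        apply Subtype.ext
        have h1 : ∀ N : ℕ, (((fun v : {x | c x = j} => (⟨par v.1, by have := v.2; simp only [Set.mem_ofPred_eq] at this ⊢; rw [hcpar, this]⟩ : {x | c x = j}))^[N] v) : Fin n) = par^[N] v.1 := by
          intro N
          induction N with
          | zero => rfl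
          | succ N ih => rw [Function.iterate_succ_apply', Function.iterate_succ_apply']; simp only [ih]
        rw [h1 n]
        exact (hciff v.1 j).1 v.2 }
  have hTpar : ∀ v, (T.parent v : Fin n) = par v.1 := fun v => rfl
  have hTiter : ∀ (N : ℕ) v, ((T.parent^[N] v : {x | c x = j}) : Fin n) = par^[N] v.1 := by
    intro N v
    induction N with
    | zero => rfl
    | succ N ih => rw [Function.iterate_succ_apply', Function.iterate_succ_apply', hTpar, ih]
  have hnonroot : ∀ v : {x | c x = j}, v ≠ T.root → m ≤ (σ.symm v.1).val := by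
    intro v hv
    by_contra hcon
    rw [not_le] at hcon
    apply hv
    apply Subtype.ext
    have h1 := (hciff v.1 j).1 v.2
    rw [Function.iterate_fixed (par_of_lt _ hcon)] at h1
    exact h1
  refine ⟨{x | c x = j}, T, Equiv.refl _, ?_, ?_⟩
  · intro u
    refine le_trans (Set.encard_le_encard_of_injOn (t := ((Finset.range k : Finset ℕ) : Set ℕ))
      (f := fun v : {x | c x = j} => ((σ.symm v.1).val - m) % k) ?_ ?_) ?_
    · intro v hv
      have h1 := hnonroot v hv.1
      simp only [Finset.coe_range, Set.mem_Iio]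
      exact Nat.mod_lt _ (hkpos _ h1)
    · intro v hv w hw hvw
      have h1 := hnonroot v hv.1
      have h2 := hnonroot w hw.1
      have h3 : T.parent v = T.parent w := by rw [hv.2, hw.2]
      have h4 : par v.1 = par w.1 := congrArg Subtype.val h3
      rw [par_of_le _ h1, par_of_le _ h2] at h4
      have h5 := τ.injective h4
      rw [Fin.mk.injEq] at h5
      simp only at hvw
      have h6 : (σ.symm v.1).val - m = (σ.symm w.1).val - m := by
        rw [← Nat.div_add_mod ((σ.symm v.1).val - m) k, ← Nat.div_add_mod ((σ.symm w.1).val - m) k,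
          h5, hvw]
      have h7 : (σ.symm v.1).val = (σ.symm w.1).val := by omega
      exact Subtype.ext (σ.symm.injective (Fin.ext h7))
    · rw [Set.encard_coe_eq_coe_finsetCard, Finset.card_range]
  · intro u v hdesc
    obtain ⟨hne, N, hN⟩ := hdesc
    have hstep : ∀ N : ℕ, par^[N] v.1 = v.1 ∨ b (par^[N] v.1) ≤ a v.1 := by
      intro N
      induction N with
      | zero => left; rfl
      | succ N ih =>
        rw [Function.iterate_succ_apply']
        rcases ih with h | h
        · rw [h]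
          by_cases h' : (σ.symm v.1).val < m
          · left; exact par_of_lt _ h'
          · right; exact key _ (not_lt.1 h')
        · right
          by_cases h' : (σ.symm (par^[N] v.1)).val < m
          · rw [par_of_lt _ h']; exact h
          · have h1 := key _ (not_lt.1 h')
            have h2 := hab (par^[N] v.1)
            linarith
    have h1 : (u : Fin n) = par^[N] v.1 := by rw [← hTiter, hN]
    rcases hstep N with h | h
    · exact absurd (Subtype.ext (by rw [h1, h])) hne
    · simpa [h1] using h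

/-- the k-width is at most `m`. -/
theorem kWidth_le (hab : ∀ i, a i < b i) (k m : ℕ)
    (hm : ∀ x, (Finset.univ.filter fun i => a i ≤ x).card ≤
      m + k * (Finset.univ.filter fun i => b i ≤ x).card) :
    kWidth (fun i j => b i ≤ a j) k ≤ m := by
  obtain ⟨c, hc⟩ := exists_coloring a b hab k m hm
  have h : min m n ∈ {m : ℕ | ∃ c : Fin n → Fin m, ∀ j, IsKAryChain (fun i j => b i ≤ a j) k {x | c x = j}} := ⟨c, hc⟩
  exact (Nat.sInf_le h).trans (min_le_left _ _)

end Comb

section Prob

variable {Ω : Type*} [MeasurableSpace Ω] {P : Measure Ω} [IsProbabilityMeasure P]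
variable {U V : ℕ → Ω → ℝ}

omit [IsProbabilityMeasure P] in
theorem meas_le_of_unif {X : Ω → ℝ} (hX : Measurable X)
    (hlaw : P.map X = volume.restrict (Set.Ioo 0 1)) {x : ℝ} (h0 : 0 ≤ x) (h1 : x ≤ 1) :
    P.real (X ⁻¹' Set.Iic x) = x := by
  have h : P (X ⁻¹' Set.Iic x) = ENNReal.ofReal x := by
    rw [← Measure.map_apply hX measurableSet_Iic, hlaw, Measure.restrict_apply measurableSet_Iic]
    rcases h1.lt_or_eq with h | h
    · have : Set.Iic x ∩ Set.Ioo (0:ℝ) 1 = Set.Ioc 0 x := by
        ext y; simp only [Set.mem_inter_iff, Set.mem_Iic, Set.mem_Ioo, Set.mem_Ioc]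
        constructor
        · rintro ⟨a, b, c⟩; exact ⟨b, a⟩
        · rintro ⟨a, b⟩; exact ⟨b, a, by linarith⟩
      rw [this, Real.volume_Ioc]; simp
    · subst h
      have : Set.Iic (1:ℝ) ∩ Set.Ioo (0:ℝ) 1 = Set.Ioo 0 1 := by
        ext y; simp only [Set.mem_inter_iff, Set.mem_Iic, Set.mem_Ioo]
        constructor
        · rintro ⟨a, b, c⟩; exact ⟨b, c⟩
        · rintro ⟨a, b⟩; exact ⟨b.le, a, b⟩
      rw [this, Real.volume_Ioo]; simp
  rw [Measure.real, h, ENNReal.toReal_ofReal h0]

noncomputable def gfun (k : ℕ) (x y : ℝ) (p : ℝ × ℝ) : ℝ :=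
  (if min p.1 p.2 ≤ x then 1 else 0) - k * (if max p.1 p.2 ≤ y then 1 else 0)

theorem measurable_gfun (k : ℕ) (x y : ℝ) : Measurable (gfun k x y) := by
  unfold gfun
  refine Measurable.sub ?_ ?_
  · exact Measurable.ite (measurableSet_le (by fun_prop) (by fun_prop)) measurable_const measurable_const
  · exact Measurable.const_mul (Measurable.ite (measurableSet_le (by fun_prop) (by fun_prop)) measurable_const measurable_const) _

theorem abs_gfun_le (k : ℕ) (x y : ℝ) (p : ℝ × ℝ) : |gfun k x y p| ≤ k + 1 := by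
  unfold gfun
  have hk : (0:ℝ) ≤ k := Nat.cast_nonneg k
  split_ifs <;> rw [abs_le] <;> constructor <;> nlinarith

theorem integral_gfun (hU : ∀ i, Measurable (U i)) (hV : ∀ i, Measurable (V i))
    (hlU : ∀ i, P.map (U i) = volume.restrict (Set.Ioo 0 1))
    (hlV : ∀ i, P.map (V i) = volume.restrict (Set.Ioo 0 1))
    (hind : iIndepFun (Sum.elim U V) P) (k : ℕ) {x y : ℝ} (hx0 : 0 ≤ x) (hx1 : x ≤ 1)
    (hy0 : 0 ≤ y) (hy1 : y ≤ 1) (i : ℕ) :
    ∫ ω, gfun k x y (U i ω, V i ω) ∂P = 2 * x - x ^ 2 - k * y ^ 2 := by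
  have hI : IndepFun (U i) (V i) P := by
    have := hind.indepFun (i := Sum.inl i) (j := Sum.inr i) (by simp)
    simpa using this
  have hprod : ∀ z : ℝ, 0 ≤ z → z ≤ 1 → P.real (U i ⁻¹' Set.Iic z ∩ V i ⁻¹' Set.Iic z) = z * z := by
    intro z hz0 hz1
    have h1 := hI.measure_inter_preimage_eq_mul (Set.Iic z) (Set.Iic z) measurableSet_Iic measurableSet_Iic
    rw [Measure.real, h1, ENNReal.toReal_mul]
    have h2 := meas_le_of_unif (P := P) (hU i) (hlU i) hz0 hz1
    have h3 := meas_le_of_unif (P := P) (hV i) (hlV i) hz0 hz1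
    rw [Measure.real] at h2 h3
    rw [h2, h3]
  have hUm : MeasurableSet (U i ⁻¹' Set.Iic x) := hU i measurableSet_Iic
  have hVm : MeasurableSet (V i ⁻¹' Set.Iic x) := hV i measurableSet_Iic
  have hUy : MeasurableSet (U i ⁻¹' Set.Iic y) := hU i measurableSet_Iic
  have hVy : MeasurableSet (V i ⁻¹' Set.Iic y) := hV i measurableSet_Iic
  have heq : (fun ω => gfun k x y (U i ω, V i ω)) = fun ω =>
      ((U i ⁻¹' Set.Iic x).indicator (fun _ => (1:ℝ)) ω + (V i ⁻¹' Set.Iic x).indicator (fun _ => (1:ℝ)) ω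
        - (U i ⁻¹' Set.Iic x ∩ V i ⁻¹' Set.Iic x).indicator (fun _ => (1:ℝ)) ω)
      - k * (U i ⁻¹' Set.Iic y ∩ V i ⁻¹' Set.Iic y).indicator (fun _ => (1:ℝ)) ω := by
    funext ω
    simp only [gfun, Set.indicator, Set.mem_preimage, Set.mem_Iic, Set.mem_inter_iff, min_le_iff, max_le_iff]
    by_cases h1 : U i ω ≤ x <;> by_cases h2 : V i ω ≤ x <;> by_cases h3 : U i ω ≤ y <;>
      by_cases h4 : V i ω ≤ y <;> simp [h1, h2, h3, h4]
  rw [heq]
  have i1 : Integrable ((U i ⁻¹' Set.Iic x).indicator (fun _ => (1:ℝ))) P :=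
    (integrable_const _).indicator hUm
  have i2 : Integrable ((V i ⁻¹' Set.Iic x).indicator (fun _ => (1:ℝ))) P :=
    (integrable_const _).indicator hVm
  have i3 : Integrable ((U i ⁻¹' Set.Iic x ∩ V i ⁻¹' Set.Iic x).indicator (fun _ => (1:ℝ))) P :=
    (integrable_const _).indicator (hUm.inter hVm)
  have i4 : Integrable ((U i ⁻¹' Set.Iic y ∩ V i ⁻¹' Set.Iic y).indicator (fun _ => (1:ℝ))) P :=
    (integrable_const _).indicator (hUy.inter hVy)
  have j1 : ∫ ω, (U i ⁻¹' Set.Iic x).indicator (fun _ => (1:ℝ)) ω ∂P = x := by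
    rw [integral_indicator_const _ hUm, meas_le_of_unif (hU i) (hlU i) hx0 hx1]; simp
  have j2 : ∫ ω, (V i ⁻¹' Set.Iic x).indicator (fun _ => (1:ℝ)) ω ∂P = x := by
    rw [integral_indicator_const _ hVm, meas_le_of_unif (hV i) (hlV i) hx0 hx1]; simp
  have j3 : ∫ ω, (U i ⁻¹' Set.Iic x ∩ V i ⁻¹' Set.Iic x).indicator (fun _ => (1:ℝ)) ω ∂P = x * x := by
    rw [integral_indicator_const _ (hUm.inter hVm), hprod x hx0 hx1]; simp
  have j4 : ∫ ω, (U i ⁻¹' Set.Iic y ∩ V i ⁻¹' Set.Iic y).indicator (fun _ => (1:ℝ)) ω ∂P = y * y := by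
    rw [integral_indicator_const _ (hUy.inter hVy), hprod y hy0 hy1]; simp
  generalize (U i ⁻¹' Set.Iic x).indicator (fun _ => (1:ℝ)) = f1 at *
  generalize (V i ⁻¹' Set.Iic x).indicator (fun _ => (1:ℝ)) = f2 at *
  generalize (U i ⁻¹' Set.Iic x ∩ V i ⁻¹' Set.Iic x).indicator (fun _ => (1:ℝ)) = f3 at *
  generalize (U i ⁻¹' Set.Iic y ∩ V i ⁻¹' Set.Iic y).indicator (fun _ => (1:ℝ)) = f4 at *
  have k12 : Integrable (fun ω => f1 ω + f2 ω) P := i1.add i2
  have k123 : Integrable (fun ω => f1 ω + f2 ω - f3 ω) P := k12.sub i3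
  have k4 : Integrable (fun ω => (k:ℝ) * f4 ω) P := i4.const_mul _
  rw [integral_sub k123 k4, integral_sub k12 i3, integral_add i1 i2, integral_const_mul, j1, j2, j3, j4]
  ring

theorem dev_bound (hU : ∀ i, Measurable (U i)) (hV : ∀ i, Measurable (V i))
    (hind : iIndepFun (Sum.elim U V) P) (k : ℕ) (x y : ℝ) (n : ℕ) :
    ∫ ω, |∑ i ∈ Finset.range n, gfun k x y (U i ω, V i ω)
      - ∫ ω', ∑ i ∈ Finset.range n, gfun k x y (U i ω', V i ω') ∂P| ∂P ≤ (k + 1) * Real.sqrt n := by
  set Y : ℕ → Ω → ℝ := fun i ω => gfun k x y (U i ω, V i ω) with hY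
  have hYm : ∀ i, Measurable (Y i) := fun i =>
    (measurable_gfun k x y).comp ((hU i).prodMk (hV i))
  have hYb : ∀ i ω, |Y i ω| ≤ k + 1 := fun i ω => abs_gfun_le k x y _
  have hmem : ∀ i, MemLp (Y i) 2 P := fun i =>
    MemLp.of_bound (hYm i).aestronglyMeasurable (k+1) (ae_of_all _ fun ω => by
      rw [Real.norm_eq_abs]; exact hYb i ω)
  have hpair : ((Finset.range n : Finset ℕ) : Set ℕ).Pairwise fun i j => IndepFun (Y i) (Y j) P := by
    intro i _ j _ hij
    have h := hind.indepFun_prodMk_prodMk (fun s => by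
        rcases s with s | s
        · exact hU s
        · exact hV s) (Sum.inl i) (Sum.inr i) (Sum.inl j) (Sum.inr j)
      (by simpa using hij) (by simp) (by simp) (by simpa using hij)
    have := h.comp (measurable_gfun k x y) (measurable_gfun k x y)
    exact this
  have hvar : variance (∑ i ∈ Finset.range n, Y i) P ≤ n * (k + 1) ^ 2 := by
    rw [IndepFun.variance_sum (fun i _ => hmem i) hpair]
    calc ∑ i ∈ Finset.range n, variance (Y i) P ≤ ∑ i ∈ Finset.range n, ((k:ℝ) + 1) ^ 2 := by
          refine Finset.sum_le_sum fun i _ => ?_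
          refine (variance_le_expectation_sq (hYm i).aestronglyMeasurable).trans ?_
          have : ∫ ω, (Y i ^ 2) ω ∂P ≤ ∫ _, ((k:ℝ) + 1) ^ 2 ∂P := by
            refine integral_mono_of_nonneg (ae_of_all _ fun ω => by simp; positivity) (integrable_const _)
              (ae_of_all _ fun ω => ?_)
            simp only [Pi.pow_apply]
            exact sq_le_sq' (by have := abs_le.1 (hYb i ω); linarith [this.1]) (abs_le.1 (hYb i ω)).2
          simpa using this
      _ = n * (k + 1) ^ 2 := by simp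
  set S : Ω → ℝ := ∑ i ∈ Finset.range n, Y i with hS
  have hSmem : MemLp S 2 P := memLp_finsetSum' _ fun i _ => hmem i
  have hSapp : ∀ ω, S ω = ∑ i ∈ Finset.range n, gfun k x y (U i ω, V i ω) := by
    intro ω; simp [hS, hY, Finset.sum_apply]
  have hconv : (fun ω => |∑ i ∈ Finset.range n, gfun k x y (U i ω, V i ω)
      - ∫ ω', ∑ i ∈ Finset.range n, gfun k x y (U i ω', V i ω') ∂P|) = fun ω => |S ω - ∫ ω', S ω' ∂P| := by
    funext ω
    simp only [hSapp]
  rw [hconv]
  -- Jensen through the variance of |S - m|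
  set W : Ω → ℝ := fun ω => |S ω - ∫ ω', S ω' ∂P| with hW
  have hWmem : MemLp W 2 P := by
    have : MemLp (fun ω => S ω - ∫ ω', S ω' ∂P) 2 P := hSmem.sub (memLp_const _)
    exact this.abs
  have h1 : 0 ≤ variance W P := variance_nonneg _ _
  rw [variance_eq_sub hWmem] at h1
  have h2 : ∫ ω, (W ^ 2) ω ∂P = variance S P := by
    rw [variance_eq_integral hSmem.aestronglyMeasurable.aemeasurable]
    congr 1
    funext ω
    simp only [hW, Pi.pow_apply, sq_abs]
  rw [h2] at h1
  have h3 : (∫ ω, W ω ∂P) ^ 2 ≤ n * (k + 1) ^ 2 := by linarith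
  have h4 : 0 ≤ ∫ ω, W ω ∂P := integral_nonneg fun ω => abs_nonneg _
  have h5 : ((k:ℝ) + 1) * Real.sqrt n = Real.sqrt (n * (k + 1) ^ 2) := by
    rw [Real.sqrt_mul (Nat.cast_nonneg n), Real.sqrt_sq (by positivity)]; ring
  rw [h5]
  exact Real.le_sqrt_of_sq_le h3


end Prob

/-- `k`-width is at least `#{a ≤ x} - k #{b ≤ x}`. -/
theorem le_kWidth {n : ℕ} (a b : Fin n → ℝ) (hab : ∀ i, a i < b i) (k : ℕ) (x : ℝ) :
    (Finset.univ.filter fun i => a i ≤ x).card ≤
      kWidth (fun i j => b i ≤ a j) k + k * (Finset.univ.filter fun i => b i ≤ x).card := by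
  have hne : {m : ℕ | ∃ c : Fin n → Fin m, ∀ j,
      IsKAryChain (fun i j => b i ≤ a j) k {x | c x = j}}.Nonempty := by
    obtain ⟨c, hc⟩ := exists_coloring a b hab k n (fun x =>
      ((Finset.card_le_univ _).trans (by simp)).trans (Nat.le_add_right _ _))
    exact ⟨_, c, hc⟩
  obtain ⟨c, hc⟩ := Nat.sInf_mem hne
  exact lower_of_coloring a b k _ c hc x

theorem sum_range_gfun (u v : ℕ → ℝ) (k n : ℕ) (x y : ℝ) :
    ∑ i ∈ Finset.range n, gfun k x y (u i, v i) =
      ((Finset.univ.filter fun i : Fin n => min (u i) (v i) ≤ x).card : ℝ) -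
      k * ((Finset.univ.filter fun i : Fin n => max (u i) (v i) ≤ y).card : ℝ) := by
  rw [← Fin.sum_univ_eq_sum_range (fun i => gfun k x y (u i, v i)) n]
  simp only [gfun, Finset.sum_sub_distrib, ← Finset.mul_sum]
  simp

theorem quad_bound (k : ℕ) (x : ℝ) : 2 * x - x ^ 2 - k * x ^ 2 ≤ 1 / ((k:ℝ) + 1) := by
  have hk : (0:ℝ) < (k:ℝ) + 1 := by positivity
  rw [le_div_iff₀ hk]
  nlinarith [sq_nonneg (((k:ℝ)+1) * x - 1)]

set_option maxHeartbeats 400000 in
/-- deterministic upper bound -/
theorem kWidth_le_det (u v : ℕ → ℝ) (n : ℕ) (h01 : ∀ i, 0 < min (u i) (v i) ∧ max (u i) (v i) < 1)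
    (hne : ∀ i, u i ≠ v i) (k M : ℕ) (hM : 0 < M) (E : ℕ → ℝ)
    (hE : ∀ i, i < M → E i ≤ n * (1 / ((k:ℝ) + 1) + 2 / M)) :
    (kWidth (fun i j : Fin n => max (u i) (v i) ≤ min (u j) (v j)) k : ℝ) ≤
      n * (1 / ((k:ℝ) + 1) + 2 / M) + ∑ i ∈ Finset.range M,
        |∑ j ∈ Finset.range n, gfun k (((i:ℝ) + 1) / M) ((i:ℝ) / M) (u j, v j) - E i| := by
  have hMr : (0:ℝ) < M := by exact_mod_cast hM
  have h8 : (0:ℝ) ≤ n * (1 / ((k:ℝ) + 1) + 2 / M) := by positivity
  set L : ℝ → ℕ := fun x => (Finset.univ.filter fun i : Fin n => min (u i) (v i) ≤ x).card with hL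
  set R : ℝ → ℕ := fun x => (Finset.univ.filter fun i : Fin n => max (u i) (v i) ≤ x).card with hR
  have hLmono : Monotone L := by
    intro x y hxy
    refine Finset.card_le_card fun i hi => ?_
    simp only [Finset.mem_filter, Finset.mem_univ, true_and] at hi ⊢
    exact hi.trans hxy
  have hRmono : Monotone R := by
    intro x y hxy
    refine Finset.card_le_card fun i hi => ?_
    simp only [Finset.mem_filter, Finset.mem_univ, true_and] at hi ⊢
    exact hi.trans hxy
  set m : ℕ := (Finset.range M).sup (fun i => L (((i:ℝ) + 1) / M) - k * R ((i:ℝ) / M)) with hm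
  have hmi : ∀ i, i < M → L (((i:ℝ) + 1) / M) ≤ m + k * R ((i:ℝ) / M) := by
    intro i hi
    have : L (((i:ℝ) + 1) / M) - k * R ((i:ℝ) / M) ≤ m :=
      Finset.le_sup (f := fun i : ℕ => L (((i:ℝ) + 1) / M) - k * R ((i:ℝ) / M)) (Finset.mem_range.2 hi)
    omega
  have hbound : kWidth (fun i j : Fin n => max (u i) (v i) ≤ min (u j) (v j)) k ≤ m := by
    refine kWidth_le (fun i : Fin n => min (u i) (v i)) (fun i : Fin n => max (u i) (v i)) ?_ k m ?_
    · intro i
      exact min_lt_max.2 (hne i)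
    · intro x
      change L x ≤ m + k * R x
      by_cases hx0 : x < 0
      · have : L x = 0 := by
          simp only [hL, Finset.card_eq_zero, Finset.filter_eq_empty_iff, Finset.mem_univ, true_implies,
            not_le]
          intro i
          exact hx0.trans (h01 i).1
        omega
      · rw [not_lt] at hx0
        by_cases hx1 : x < 1
        · have hi : ⌊x * M⌋₊ < M := by
            rw [Nat.floor_lt (by positivity)]
            nlinarith
          have h1 := hmi _ hi
          have h2 : x ≤ ((⌊x * M⌋₊ : ℝ) + 1) / M := by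
            rw [le_div_iff₀ hMr]
            exact (Nat.lt_floor_add_one _).le
          have h3 : ((⌊x * M⌋₊ : ℝ)) / M ≤ x := by
            rw [div_le_iff₀ hMr]
            exact Nat.floor_le (by positivity)
          have h4 := hLmono h2
          have h5 := hRmono h3
          have h6 := Nat.mul_le_mul_left k h5
          omega
        · rw [not_lt] at hx1
          have h1 := hmi (M - 1) (by omega)
          have hcast : ((M - 1 : ℕ) : ℝ) + 1 = M := by
            have : M - 1 + 1 = M := by omega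
            exact_mod_cast this
          have h2 : L x ≤ L ((((M - 1 : ℕ) : ℝ) + 1) / M) := by
            rw [hcast, div_self hMr.ne']
            refine Finset.card_le_card fun i _ => ?_
            simp only [Finset.mem_filter, Finset.mem_univ, true_and]
            exact (min_le_max.trans (h01 i).2.le)
          have h3 : (((M - 1 : ℕ) : ℝ)) / M ≤ x := by
            rw [div_le_iff₀ hMr]
            nlinarith
          have h5 := hRmono h3
          have h6 := Nat.mul_le_mul_left k h5
          omega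
  have hneM : (Finset.range M).Nonempty := ⟨0, Finset.mem_range.2 hM⟩
  obtain ⟨i₀, hi₀, hmax⟩ := Finset.exists_mem_eq_sup (Finset.range M) hneM
    (fun i => L (((i:ℝ) + 1) / M) - k * R ((i:ℝ) / M))
  rw [Finset.mem_range] at hi₀
  have hsumnn : ∀ i ∈ Finset.range M, (0:ℝ) ≤
      |∑ j ∈ Finset.range n, gfun k (((i:ℝ) + 1) / M) ((i:ℝ) / M) (u j, v j) - E i| :=
    fun i _ => abs_nonneg _
  have h1 := Finset.single_le_sum hsumnn (Finset.mem_range.2 hi₀)
  have h2 : (m : ℝ) ≤ max ((L (((i₀:ℝ) + 1) / M) : ℝ) - k * R ((i₀:ℝ) / M)) 0 := by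
    rw [hm, hmax]
    rcases le_total (k * R ((i₀:ℝ) / M)) (L (((i₀:ℝ) + 1) / M)) with h | h
    · rw [Nat.cast_sub h]
      push_cast
      exact le_max_left _ _
    · rw [Nat.sub_eq_zero_of_le h]
      simp
  have h3 : (kWidth (fun i j : Fin n => max (u i) (v i) ≤ min (u j) (v j)) k : ℝ) ≤ m := by
    exact_mod_cast hbound
  refine (h3.trans h2).trans ?_
  have h4 : (L (((i₀:ℝ) + 1) / M) : ℝ) - k * R ((i₀:ℝ) / M) =
      ∑ j ∈ Finset.range n, gfun k (((i₀:ℝ) + 1) / M) ((i₀:ℝ) / M) (u j, v j) := by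
    rw [sum_range_gfun u v k n]
  have h5 := hE i₀ hi₀
  have h6 := le_abs_self (∑ j ∈ Finset.range n, gfun k (((i₀:ℝ) + 1) / M) ((i₀:ℝ) / M) (u j, v j) - E i₀)
  have h7 : 0 ≤ ∑ i ∈ Finset.range M,
        |∑ j ∈ Finset.range n, gfun k (((i:ℝ) + 1) / M) ((i:ℝ) / M) (u j, v j) - E i| :=
    Finset.sum_nonneg hsumnn
  refine max_le ?_ (add_nonneg h8 h7)
  rw [h4]
  linarith

section Main

variable {Ω : Type*} [MeasurableSpace Ω] {P : Measure Ω} [IsProbabilityMeasure P]
variable {U V : ℕ → Ω → ℝ}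

theorem measurable_kWidth (hU : ∀ i, Measurable (U i)) (hV : ∀ i, Measurable (V i)) (n k : ℕ) :
    Measurable (fun ω => (kWidth (fun i j : Fin n => max (U i ω) (V i ω) ≤ min (U j ω) (V j ω)) k : ℝ)) := by
  classical
  have h1 : Measurable (fun r : Fin n → Fin n → Bool => (kWidth (fun i j : Fin n => r i j = true) k : ℝ)) :=
    measurable_of_finite _
  have h2 : Measurable (fun ω => fun i j : Fin n =>
      decide (max (U i ω) (V i ω) ≤ min (U j ω) (V j ω))) := by
    refine measurable_pi_iff.2 fun i => measurable_pi_iff.2 fun j => ?_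
    refine measurable_to_bool ?_
    have : (fun ω => decide (max (U i ω) (V i ω) ≤ min (U j ω) (V j ω))) ⁻¹' {true} =
        {ω | max (U i ω) (V i ω) ≤ min (U j ω) (V j ω)} := by
      ext ω; simp
    rw [this]
    exact measurableSet_le ((hU i).max (hV i)) ((hU j).min (hV j))
  have h3 := h1.comp h2
  have h4 : (fun ω => (kWidth (fun i j : Fin n => max (U i ω) (V i ω) ≤ min (U j ω) (V j ω)) k : ℝ)) =
      (fun r : Fin n → Fin n → Bool => (kWidth (fun i j : Fin n => r i j = true) k : ℝ)) ∘
      (fun ω => fun i j : Fin n => decide (max (U i ω) (V i ω) ≤ min (U j ω) (V j ω))) := by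
    funext ω
    simp only [Function.comp_apply, decide_eq_true_eq]
  rw [h4]
  exact h3


theorem ae_good (hU : ∀ i, Measurable (U i)) (hV : ∀ i, Measurable (V i))
    (hlU : ∀ i, P.map (U i) = volume.restrict (Set.Ioo 0 1))
    (hlV : ∀ i, P.map (V i) = volume.restrict (Set.Ioo 0 1))
    (hind : iIndepFun (Sum.elim U V) P) :
    ∀ᵐ ω ∂P, (∀ i, 0 < min (U i ω) (V i ω) ∧ max (U i ω) (V i ω) < 1) ∧ ∀ i, U i ω ≠ V i ω := by
  have h1 : ∀ (X : Ω → ℝ), Measurable X → P.map X = volume.restrict (Set.Ioo 0 1) →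
      ∀ᵐ ω ∂P, X ω ∈ Set.Ioo (0:ℝ) 1 := by
    intro X hX hl
    have : ∀ᵐ y ∂(P.map X), y ∈ Set.Ioo (0:ℝ) 1 := by
      rw [hl]; exact ae_restrict_mem measurableSet_Ioo
    exact ae_of_ae_map hX.aemeasurable this
  have h2 : ∀ i, ∀ᵐ ω ∂P, U i ω ≠ V i ω := by
    intro i
    have hI : IndepFun (U i) (V i) P := by
      have := hind.indepFun (i := Sum.inl i) (j := Sum.inr i) (by simp)
      simpa using this
    have hmap := (indepFun_iff_map_prod_eq_prod_map_map (hU i).aemeasurable (hV i).aemeasurable).1 hI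
    have hdiag : ∀ᵐ p ∂(P.map (fun ω => (U i ω, V i ω))), p.1 ≠ p.2 := by
      rw [hmap, hlU i, hlV i]
      have hms : MeasurableSet {p : ℝ × ℝ | p.1 = p.2} := measurableSet_eq_fun measurable_fst measurable_snd
      rw [ae_iff]
      simp only [ne_eq, not_not]
      rw [Measure.prod_apply hms]
      simp
    exact ae_of_ae_map ((hU i).prodMk (hV i)).aemeasurable hdiag
  have h3 : ∀ᵐ ω ∂P, ∀ i, (U i ω ∈ Set.Ioo (0:ℝ) 1 ∧ V i ω ∈ Set.Ioo (0:ℝ) 1) ∧ U i ω ≠ V i ω := by
    rw [ae_all_iff]
    intro i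
    filter_upwards [h1 _ (hU i) (hlU i), h1 _ (hV i) (hlV i), h2 i] with ω a b c
    exact ⟨⟨a, b⟩, c⟩
  filter_upwards [h3] with ω hω
  refine ⟨fun i => ?_, fun i => (hω i).2⟩
  obtain ⟨⟨a, b⟩, c⟩ := hω i
  exact ⟨lt_min a.1 b.1, max_lt a.2 b.2⟩

theorem integrable_kWidth (hU : ∀ i, Measurable (U i)) (hV : ∀ i, Measurable (V i)) (n k : ℕ) :
    Integrable (fun ω => (kWidth (fun i j : Fin n => max (U i ω) (V i ω) ≤ min (U j ω) (V j ω)) k : ℝ)) P := by
  classical
  obtain ⟨C, hC⟩ : ∃ C : ℝ, ∀ r : Fin n → Fin n → Bool,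
      |(kWidth (fun i j : Fin n => r i j = true) k : ℝ)| ≤ C := by
    obtain ⟨r₀, hr₀⟩ := Finite.exists_max (fun r : Fin n → Fin n → Bool =>
      |(kWidth (fun i j : Fin n => r i j = true) k : ℝ)|)
    exact ⟨_, hr₀⟩
  refine Integrable.of_bound (measurable_kWidth hU hV n k).aestronglyMeasurable C
    (ae_of_all _ fun ω => ?_)
  have := hC (fun i j : Fin n => decide (max (U i ω) (V i ω) ≤ min (U j ω) (V j ω)))
  simp only [decide_eq_true_eq] at this
  rw [Real.norm_eq_abs]
  exact this

theorem integrable_sum_gfun (hU : ∀ i, Measurable (U i)) (hV : ∀ i, Measurable (V i)) (k n : ℕ) (x y : ℝ) :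
    Integrable (fun ω => ∑ i ∈ Finset.range n, gfun k x y (U i ω, V i ω)) P := by
  refine integrable_finsetSum _ fun i _ => ?_
  refine Integrable.of_bound ((measurable_gfun k x y).comp ((hU i).prodMk (hV i))).aestronglyMeasurable (k+1)
    (ae_of_all _ fun ω => ?_)
  rw [Real.norm_eq_abs]; exact abs_gfun_le k x y _

theorem integral_sum_gfun (hU : ∀ i, Measurable (U i)) (hV : ∀ i, Measurable (V i))
    (hlU : ∀ i, P.map (U i) = volume.restrict (Set.Ioo 0 1))
    (hlV : ∀ i, P.map (V i) = volume.restrict (Set.Ioo 0 1))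
    (hind : iIndepFun (Sum.elim U V) P) (k : ℕ) {x y : ℝ} (hx0 : 0 ≤ x) (hx1 : x ≤ 1)
    (hy0 : 0 ≤ y) (hy1 : y ≤ 1) (n : ℕ) :
    ∫ ω, ∑ i ∈ Finset.range n, gfun k x y (U i ω, V i ω) ∂P = n * (2 * x - x ^ 2 - k * y ^ 2) := by
  rw [integral_finsetSum]
  · rw [Finset.sum_congr rfl fun i _ => integral_gfun hU hV hlU hlV hind k hx0 hx1 hy0 hy1 i]
    simp only [Finset.sum_const, Finset.card_range, nsmul_eq_mul]
  · intro i _
    refine Integrable.of_bound ((measurable_gfun k x y).comp ((hU i).prodMk (hV i))).aestronglyMeasurable (k+1)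
      (ae_of_all _ fun ω => ?_)
    rw [Real.norm_eq_abs]; exact abs_gfun_le k x y _

theorem lower_expect (hU : ∀ i, Measurable (U i)) (hV : ∀ i, Measurable (V i))
    (hlU : ∀ i, P.map (U i) = volume.restrict (Set.Ioo 0 1))
    (hlV : ∀ i, P.map (V i) = volume.restrict (Set.Ioo 0 1))
    (hind : iIndepFun (Sum.elim U V) P) (n k : ℕ) :
    n * (1 / ((k:ℝ) + 1)) ≤
      ∫ ω, (kWidth (fun i j : Fin n => max (U i ω) (V i ω) ≤ min (U j ω) (V j ω)) k : ℝ) ∂P := by
  have hk : (0:ℝ) < (k:ℝ) + 1 := by positivity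
  have hx0 : (0:ℝ) ≤ 1 / ((k:ℝ) + 1) := by positivity
  have hx1 : 1 / ((k:ℝ) + 1) ≤ 1 := by
    rw [div_le_one hk]
    have := Nat.cast_nonneg (α := ℝ) k
    linarith
  have h1 := integral_sum_gfun (P := P) hU hV hlU hlV hind k hx0 hx1 hx0 hx1 n
  have h2 : 2 * (1 / ((k:ℝ) + 1)) - (1 / ((k:ℝ) + 1)) ^ 2 - k * (1 / ((k:ℝ) + 1)) ^ 2 = 1 / ((k:ℝ) + 1) := by
    field_simp
    ring
  rw [h2] at h1
  rw [← h1]
  refine integral_mono_ae (integrable_sum_gfun hU hV k n _ _) (integrable_kWidth hU hV n k) ?_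
  filter_upwards [ae_good hU hV hlU hlV hind] with ω hω
  rw [sum_range_gfun (fun i => U i ω) (fun i => V i ω) k n]
  have h3 := le_kWidth (fun i : Fin n => min (U i ω) (V i ω)) (fun i : Fin n => max (U i ω) (V i ω))
    (fun i => min_lt_max.2 (hω.2 i)) k (1 / ((k:ℝ) + 1))
  have h4 : ((Finset.univ.filter fun i : Fin n => min (U i ω) (V i ω) ≤ 1 / ((k:ℝ) + 1)).card : ℝ) ≤
      (kWidth (fun i j : Fin n => max (U i ω) (V i ω) ≤ min (U j ω) (V j ω)) k : ℝ) +
      k * ((Finset.univ.filter fun i : Fin n => max (U i ω) (V i ω) ≤ 1 / ((k:ℝ) + 1)).card : ℝ) := by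
    exact_mod_cast h3
  linarith

theorem upper_expect (hU : ∀ i, Measurable (U i)) (hV : ∀ i, Measurable (V i))
    (hlU : ∀ i, P.map (U i) = volume.restrict (Set.Ioo 0 1))
    (hlV : ∀ i, P.map (V i) = volume.restrict (Set.Ioo 0 1))
    (hind : iIndepFun (Sum.elim U V) P) (n k M : ℕ) (hM : 0 < M) :
    ∫ ω, (kWidth (fun i j : Fin n => max (U i ω) (V i ω) ≤ min (U j ω) (V j ω)) k : ℝ) ∂P ≤
      n * (1 / ((k:ℝ) + 1) + 2 / M) + M * ((k + 1) * Real.sqrt n) := by
  have hMr : (0:ℝ) < M := by exact_mod_cast hM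
  set E : ℕ → ℝ := fun i => ∫ ω', ∑ j ∈ Finset.range n,
    gfun k (((i:ℝ) + 1) / M) ((i:ℝ) / M) (U j ω', V j ω') ∂P with hEdef
  have hE : ∀ i, i < M → E i ≤ n * (1 / ((k:ℝ) + 1) + 2 / M) := by
    intro i hi
    have hir : (i:ℝ) + 1 ≤ M := by exact_mod_cast hi
    have h1 : (0:ℝ) ≤ (i:ℝ) / M := by positivity
    have h2 : (i:ℝ) / M ≤ 1 := by rw [div_le_one hMr]; linarith
    have h3 : (0:ℝ) ≤ ((i:ℝ) + 1) / M := by positivity
    have h4 : ((i:ℝ) + 1) / M ≤ 1 := by rw [div_le_one hMr]; linarith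
    simp only [hEdef]
    rw [integral_sum_gfun hU hV hlU hlV hind k h3 h4 h1 h2 n]
    refine mul_le_mul_of_nonneg_left ?_ (Nat.cast_nonneg n)
    have h5 := quad_bound k ((i:ℝ) / M)
    have h6 : ((i:ℝ) + 1) / M = (i:ℝ) / M + 1 / M := by ring
    rw [h6]
    have h7 : (0:ℝ) < 1 / M := by positivity
    have h8 : (2:ℝ) / M = 2 * (1 / M) := by ring
    rw [h8]
    nlinarith
  have hint : ∀ i : ℕ, Integrable (fun ω => |∑ j ∈ Finset.range n,
      gfun k (((i:ℝ) + 1) / M) ((i:ℝ) / M) (U j ω, V j ω) - E i|) P := fun i =>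
    ((integrable_sum_gfun hU hV k n _ _).sub (integrable_const _)).abs
  have h1 : ∫ ω, (kWidth (fun i j : Fin n => max (U i ω) (V i ω) ≤ min (U j ω) (V j ω)) k : ℝ) ∂P ≤
      ∫ ω, (n * (1 / ((k:ℝ) + 1) + 2 / M) + ∑ i ∈ Finset.range M, |∑ j ∈ Finset.range n,
        gfun k (((i:ℝ) + 1) / M) ((i:ℝ) / M) (U j ω, V j ω) - E i|) ∂P := by
    refine integral_mono_ae (integrable_kWidth hU hV n k) ?_ ?_
    · exact (integrable_const _).add (integrable_finsetSum _ fun i _ => hint i)
    · filter_upwards [ae_good hU hV hlU hlV hind] with ω hω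
      exact kWidth_le_det (fun i => U i ω) (fun i => V i ω) n hω.1 hω.2 k M hM E hE
  refine h1.trans ?_
  rw [integral_add (integrable_const _) (integrable_finsetSum _ fun i _ => hint i),
    integral_finsetSum _ fun i _ => hint i]
  have h2 : ∑ i ∈ Finset.range M, ∫ ω, |∑ j ∈ Finset.range n,
      gfun k (((i:ℝ) + 1) / M) ((i:ℝ) / M) (U j ω, V j ω) - E i| ∂P ≤
      ∑ i ∈ Finset.range M, ((k:ℝ) + 1) * Real.sqrt n :=
    Finset.sum_le_sum fun i _ => dev_bound hU hV hind k _ _ n
  simp only [Finset.sum_const, Finset.card_range, nsmul_eq_mul] at h2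
  simpa using h2

end Main

/-- For every `k`, the expected `k`-width of `n` independent uniform random intervals, divided by `n`,
tends to `1 / (k + 1)`. -/
theorem result {Ω : Type*} [MeasurableSpace Ω] (P : Measure Ω) [IsProbabilityMeasure P]
    (U V : ℕ → Ω → ℝ) (hU : ∀ i, Measurable (U i)) (hV : ∀ i, Measurable (V i))
    (hlU : ∀ i, P.map (U i) = volume.restrict (Set.Ioo 0 1))
    (hlV : ∀ i, P.map (V i) = volume.restrict (Set.Ioo 0 1))
    (hind : iIndepFun (Sum.elim U V) P) (k : ℕ) :
    Tendsto (fun n : ℕ => (∫ ω, (kWidth (fun i j : Fin n =>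
      max (U i ω) (V i ω) ≤ min (U j ω) (V j ω)) k : ℝ) ∂P) / n) atTop (𝓝 (1 / ((k:ℝ) + 1))) := by
  rw [Metric.tendsto_atTop]
  intro ε hε
  obtain ⟨M, hM⟩ := exists_nat_gt (4 / ε)
  have hM0r : (0:ℝ) < M := lt_trans (by positivity) hM
  have hM0 : 0 < M := by exact_mod_cast hM0r
  have hM2 : (2:ℝ) / M < ε / 2 := by
    rw [div_lt_iff₀ hM0r]
    rw [div_lt_iff₀ hε] at hM
    linarith
  obtain ⟨N, hN⟩ := exists_nat_gt ((2 * (M * (k + 1)) / ε) ^ 2)
  refine ⟨max N 1, fun n hn => ?_⟩
  have hn1 : 1 ≤ n := le_trans (le_max_right _ _) hn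
  have hnN : N ≤ n := le_trans (le_max_left _ _) hn
  have hn0 : (0:ℝ) < n := by exact_mod_cast hn1
  have hlow := lower_expect (P := P) hU hV hlU hlV hind n k
  have hup := upper_expect (P := P) hU hV hlU hlV hind n k M hM0
  set I := ∫ ω, (kWidth (fun i j : Fin n =>
      max (U i ω) (V i ω) ≤ min (U j ω) (V j ω)) k : ℝ) ∂P with hI
  have hs : 2 * (M * (k + 1)) / ε < Real.sqrt n := by
    apply Real.lt_sqrt_of_sq_lt
    refine lt_of_lt_of_le hN ?_
    exact_mod_cast hnN
  have hsq : Real.sqrt n * Real.sqrt n = n := Real.mul_self_sqrt hn0.le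
  have hspos : 0 < Real.sqrt n := Real.sqrt_pos.2 hn0
  have h3 : (M:ℝ) * ((k + 1) * Real.sqrt n) < ε / 2 * n := by
    rw [div_lt_iff₀ hε] at hs
    have : (M:ℝ) * ((k + 1) * Real.sqrt n) = (M * (k+1)) * Real.sqrt n := by ring
    have h5 : (M * ((k:ℝ)+1)) * Real.sqrt n < ε / 2 * (Real.sqrt n * Real.sqrt n) := by nlinarith
    rw [this]
    rwa [hsq] at h5
  rw [Real.dist_eq, abs_lt]
  constructor
  · have : 1 / ((k:ℝ) + 1) ≤ I / n := by
      rw [le_div_iff₀ hn0]; linarith
    linarith
  · have : I / n < 1 / ((k:ℝ) + 1) + ε := by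
      rw [div_lt_iff₀ hn0]
      have h4 : (n:ℝ) * (2 / M) < n * (ε / 2) := mul_lt_mul_of_pos_left hM2 hn0
      nlinarith
    linarith

end Pool.Agent.Results.MP_6cdded_pr.KWidthLimit
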